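import Pool.Agent.Helper82.RD.Defs

/-!
# Project RD (MP_86d903_lc): module CLB
-/

set_option autoImplicit false

open Finset MP86d903

namespace Pool.Agent.Helper82.RD

variable {ι V : Type} [DecidableEq ι] [Fintype ι] [Fintype V] [DecidableEq V]
  {vs ng : ι → Finset V} {q : ℕ}

omit [Fintype ι] [Fintype V] in
private theorem mCLB_key (h3 : ∀ c, (vs c).card = 3) {A : Finset V} (hA : Closed vs q A)
    (S : Finset ι) (hS : S.Nonempty) (hq : S.card ≤ q) (hc : ∀ c ∈ S, ¬ vs c ⊆ A) :
    (S.card : ℤ) + 2 ≤ 3 * gg vs A S := by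
  have h1 := hA S hS hq hc
  have h2 : ∑ c ∈ S, ((vs c \ A).card : ℤ) ≤ 3 * S.card := by
    have h4 : ∀ c ∈ S, ((vs c \ A).card : ℤ) ≤ 3 := by
      intro c _
      have := card_le_card (sdiff_subset : vs c \ A ⊆ vs c)
      rw [h3] at this
      exact_mod_cast this
    have h5 := sum_le_sum h4
    rw [sum_const, nsmul_eq_mul] at h5
    linarith
  have h6 : 5 * (S.card : ℤ) + 1 ≤ 3 * ((S.biUnion vs \ A).card : ℤ) := by exact_mod_cast h1
  unfold gg
  linarith

omit [Fintype ι] [Fintype V] in
theorem mCLB (h3 : ∀ c, (vs c).card = 3) (hq : 2 ≤ q) {A : Finset V} (hA : Closed vs q A) :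
    CL vs q A := by
  have htwo : ∀ c, ¬ vs c ⊆ A → 2 ≤ (vs c \ A).card := by
    intro c hc
    have h1 := hA {c} (singleton_nonempty c) (by rw [card_singleton]; omega)
      (by simpa using hc)
    rw [card_singleton, singleton_biUnion] at h1
    omega
  refine ⟨?_, htwo, ?_, ?_, ?_⟩
  · intro c
    rw [← h3 c]
    exact card_le_card sdiff_subset
  · intro S hS hSq hc
    have h1 := mCLB_key h3 hA S hS hSq hc
    by_cases h2 : S.card = 1
    · obtain ⟨c, rfl⟩ := card_eq_one.1 h2
      have h4 := htwo c (hc c (mem_singleton_self c))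
      unfold gg
      rw [singleton_biUnion, sum_singleton]
      have h5 : (2 : ℤ) ≤ ((vs c \ A).card : ℤ) := by exact_mod_cast h4
      linarith
    · have h4 : 2 ≤ S.card := by
        have := card_pos.2 hS
        omega
      have h5 : (2 : ℤ) ≤ (S.card : ℤ) := by exact_mod_cast h4
      omega
  · intro S hS hSq hc
    have h1 := mCLB_key h3 hA S hS hSq hc
    linarith
  · intro c c' hne hc hc'
    have h1 := hA {c, c'} (insert_nonempty _ _) (by rw [card_pair hne]; omega) (by
      intro d hd
      rw [mem_insert, mem_singleton] at hd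
      rcases hd with rfl | rfl
      · exact hc
      · exact hc')
    rw [card_pair hne, biUnion_insert, singleton_biUnion, union_sdiff_distrib] at h1
    have h2 := card_union_add_card_inter (vs c \ A) (vs c' \ A)
    have h4 : (vs c \ A) ∩ (vs c' \ A) = (vs c ∩ vs c') \ A := by
      ext x
      simp only [mem_inter, mem_sdiff]
      tauto
    rw [h4] at h2
    omega

end Pool.Agent.Helper82.RD
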